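import Mathlib

set_option autoImplicit false

namespace Pool.Agent.Results.MP_bbacab_nt.Ample

theorem result :
    ∀ a : ℕ → ℕ, a 1 = 1 → (∀ n, 2 ≤ n → a n = 1 + ∑ m ∈ n.properDivisors, a m) →
      ∀ k : ℕ, 1 ≤ k → ∃ n : ℕ, 0 < n ∧ n < a n ∧ ∀ i < k, ¬ Nat.nth Nat.Prime i ∣ n := by
  intro a _ ha k _
  classical
  set B := Nat.nth Nat.Prime k with hB
  obtain ⟨D, hD, hc⟩ : ∃ D : Finset ℕ, (∀ p ∈ D, p.Prime ∧ B ≤ p) ∧ (2 : ℝ) ≤ ∑ p ∈ D, 1 / (p : ℝ) := by
    by_contra hcon
    push Not at hcon
    apply Nat.Primes.not_summable_one_div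
    refine summable_of_sum_le (c := 2 + B) (fun p => by positivity) fun s => ?_
    rw [← Finset.sum_filter_add_sum_filter_not s (fun p => B ≤ (p : ℕ))]
    have h1 := hcon ((s.filter (fun p : Nat.Primes => B ≤ (p : ℕ))).image (fun p : Nat.Primes => (p : ℕ))) (by
      intro p hp
      obtain ⟨q, hq, rfl⟩ := Finset.mem_image.mp hp
      exact ⟨q.2, (Finset.mem_filter.mp hq).2⟩)
    rw [Finset.sum_image (g := fun p : Nat.Primes => (p : ℕ)) (fun x _ y _ h => Subtype.ext h)] at h1
    have h2 : ∑ p ∈ s.filter (fun p : Nat.Primes => ¬ B ≤ (p : ℕ)), 1 / ((p : ℕ) : ℝ) ≤ B := by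
      calc _ ≤ ∑ p ∈ s.filter (fun p : Nat.Primes => ¬ B ≤ (p : ℕ)), (1 : ℝ) := by
            refine Finset.sum_le_sum fun p _ => ?_
            rw [div_le_one (by exact_mod_cast p.2.pos)]
            exact_mod_cast p.2.pos
        _ = ((s.filter (fun p : Nat.Primes => ¬ B ≤ (p : ℕ))).card : ℝ) := by simp
        _ ≤ B := by
            have : (s.filter (fun p : Nat.Primes => ¬ B ≤ (p : ℕ))).card ≤ (Finset.range B).card := by
              refine Finset.card_le_card_of_injOn (fun p : Nat.Primes => (p : ℕ)) ?_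
                (fun x _ y _ h => Subtype.ext h)
              intro p hp
              have := (Finset.mem_filter.mp hp).2
              simp only [Finset.coe_range, Set.mem_Iio]; omega
            rw [Finset.card_range] at this
            exact_mod_cast this
    linarith
  let S : ℕ → Finset ℕ := fun N => Nat.rec {1} (fun _ T => (T ×ˢ D).image (fun x => x.1 * x.2)) N
  have hS0 : S 0 = {1} := rfl
  have hSs : ∀ N, S (N + 1) = (S N ×ˢ D).image (fun x => x.1 * x.2) := fun N => rfl
  have hform : ∀ N, ∀ n ∈ S N, ∃ e : ℕ → ℕ, (∀ p, e p ≤ N) ∧ n = ∏ p ∈ D, p ^ e p := by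
    intro N
    induction N with
    | zero => intro n hn; rw [hS0, Finset.mem_singleton] at hn; exact ⟨fun _ => 0, by simp, by simp [hn]⟩
    | succ N ih =>
      intro n hn
      rw [hSs] at hn
      obtain ⟨⟨m, q⟩, hm, rfl⟩ := Finset.mem_image.mp hn
      obtain ⟨hm, hq⟩ := Finset.mem_product.mp hm
      obtain ⟨e, he, hme⟩ := ih m hm
      refine ⟨fun p => e p + if p = q then 1 else 0, fun p => ?_, ?_⟩
      · have := he p
        simp only
        split_ifs <;> omega
      · simp only [pow_add, Finset.prod_mul_distrib, ← hme]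
        congr 1
        simp only at hq
        simp [pow_ite, Finset.prod_ite_eq', hq]
  have hpos : ∀ N, ∀ n ∈ S N, 0 < n := by
    intro N n hn
    obtain ⟨e, -, rfl⟩ := hform N n hn
    exact Finset.prod_pos fun p hp => pow_pos (hD p hp).1.pos _
  have hcard : ∀ N, (S N).card ≤ (N + 1) ^ D.card := by
    intro N
    have : S N ⊆ (Fintype.piFinset (fun _ : D => Finset.range (N + 1))).image
        (fun e => ∏ p : D, (p : ℕ) ^ e p) := by
      intro n hn
      obtain ⟨e, he, rfl⟩ := hform N n hn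
      refine Finset.mem_image.mpr ⟨fun p => e p, ?_, ?_⟩
      · simp [Fintype.mem_piFinset, he]
      · exact Finset.prod_coe_sort D (fun p => p ^ e p)
    refine (Finset.card_le_card this).trans (Finset.card_image_le.trans ?_)
    simp [Fintype.card_piFinset]
  have hT : ∀ N, (2 : ℝ) ^ N ≤ ∑ n ∈ S N, (a n : ℝ) / n := by
    intro N
    induction N with
    | zero => simp [hS0, *]
    | succ N ih =>
      have e1 : (2 : ℝ) ^ (N + 1) ≤ ∑ x ∈ S N ×ˢ D, (a x.1 : ℝ) / (x.1 * x.2 : ℕ) := by
        rw [Finset.sum_product, pow_succ]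
        calc (2 : ℝ) ^ N * 2 ≤ (∑ n ∈ S N, (a n : ℝ) / n) * ∑ p ∈ D, 1 / (p : ℝ) :=
              mul_le_mul ih hc (by norm_num) (le_trans (by positivity) ih)
          _ = _ := by
              rw [Finset.sum_mul_sum]
              refine Finset.sum_congr rfl fun m _ => Finset.sum_congr rfl fun p _ => ?_
              push_cast; rw [div_mul_div_comm, mul_one]
      refine e1.trans ?_
      rw [hSs, ← Finset.sum_fiberwise_of_maps_to (g := fun x : ℕ × ℕ => x.1 * x.2)
        (fun x hx => Finset.mem_image_of_mem _ hx)]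
      refine Finset.sum_le_sum fun n hn => ?_
      have hn0 : 0 < n := hpos (N + 1) n (by rw [hSs]; exact hn)
      have hn2 : 2 ≤ n := by
        obtain ⟨⟨m, q⟩, hm, rfl⟩ := Finset.mem_image.mp hn
        obtain ⟨hm, hq⟩ := Finset.mem_product.mp hm
        have := (hD q hq).1.two_le
        have := hpos N m hm
        simp only
        nlinarith
      have e2 : ∑ x ∈ (S N ×ˢ D).filter (fun x => x.1 * x.2 = n), a x.1 ≤ a n := by
        rw [ha n hn2, ← Finset.sum_image (s := (S N ×ˢ D).filter (fun x => x.1 * x.2 = n))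
          (g := fun x : ℕ × ℕ => x.1) (f := a)]
        · refine le_add_left (Finset.sum_le_sum_of_subset ?_)
          intro m hm
          obtain ⟨⟨m, q⟩, hx, rfl⟩ := Finset.mem_image.mp hm
          obtain ⟨hx', rfl⟩ := Finset.mem_filter.mp hx
          obtain ⟨hm, hq⟩ := Finset.mem_product.mp hx'
          have := (hD q hq).1.two_le
          have := hpos N m hm
          rw [Nat.mem_properDivisors]
          exact ⟨Dvd.intro _ rfl, by simp only; nlinarith⟩
        · rintro ⟨m, q⟩ hx ⟨m', q'⟩ hy h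
          obtain ⟨hx, h1⟩ := Finset.mem_filter.mp hx
          obtain ⟨-, h2⟩ := Finset.mem_filter.mp hy
          simp only at h h1 h2
          subst h
          have := hpos N m (Finset.mem_product.mp hx).1
          rw [Nat.eq_of_mul_eq_mul_left this (h1.trans h2.symm)]
      calc _ = ∑ x ∈ (S N ×ˢ D).filter (fun x => x.1 * x.2 = n), (a x.1 : ℝ) / n := by
            refine Finset.sum_congr rfl fun x hx => ?_
            rw [(Finset.mem_filter.mp hx).2]
        _ ≤ _ := by
            rw [← Finset.sum_div]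
            gcongr
            exact_mod_cast e2
  obtain ⟨N, hN⟩ : ∃ N : ℕ, ((N + 1 : ℕ) : ℝ) ^ D.card < 2 ^ N := by
    have h := tendsto_pow_const_div_const_pow_of_one_lt D.card (show (1 : ℝ) < 2 by norm_num)
    have h2 := (h.comp (Filter.tendsto_add_atTop_nat 1)).eventually
      (gt_mem_nhds (show (0 : ℝ) < 1 / 2 by norm_num))
    obtain ⟨N, hN⟩ := h2.exists
    refine ⟨N, ?_⟩
    simp only [Function.comp] at hN
    rw [div_lt_iff₀ (by positivity), pow_succ] at hN
    linarith
  by_contra hcon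
  push Not at hcon
  have hle : ∀ n ∈ S N, (a n : ℝ) / n ≤ 1 := by
    intro n hn
    have h0 := hpos N n hn
    rw [div_le_one (by exact_mod_cast h0)]
    by_contra hlt
    obtain ⟨i, hi, hd⟩ := hcon n h0 (by exact_mod_cast not_le.mp hlt)
    obtain ⟨e, -, rfl⟩ := hform N n hn
    have hp : (Nat.nth Nat.Prime i).Prime := Nat.prime_nth_prime i
    obtain ⟨p, hp1, hp2⟩ := (Prime.dvd_finsetProd_iff hp.prime _).mp hd
    have := (Nat.prime_dvd_prime_iff_eq hp (hD p hp1).1).mp (hp.dvd_of_dvd_pow hp2)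
    have h3 : Nat.nth Nat.Prime i < Nat.nth Nat.Prime k :=
      Nat.nth_strictMono Nat.infinite_setOfPred_prime hi
    have := (hD p hp1).2
    omega
  have h1 := Finset.sum_le_sum hle
  have h2 := hT N
  have h3 : ((S N).card : ℝ) ≤ ((N + 1 : ℕ) : ℝ) ^ D.card := by exact_mod_cast hcard N
  simp only [Finset.sum_const, nsmul_eq_mul, mul_one] at h1
  linarith

end Pool.Agent.Results.MP_bbacab_nt.Ample
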